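import Mathlib.Algebra.Group.MinimalAxioms
import Mathlib.RepresentationTheory.Basic
import Mathlib.Data.Int.ConditionallyCompleteOrder
import Mathlib.Data.Int.Star
import Mathlib.Algebra.Order.Ring.Star
import Mathlib.GroupTheory.Solvable
import Mathlib.Order.Interval.Finset.Box

set_option autoImplicit false

namespace Pool.Agent.MP_6d5e8e_al

/-- A cyclic submodule that is stable under four endomorphisms satisfying the Leavitt relations
is isomorphic to its square. -/
theorem span_equiv_sq {R M : Type} [Ring R] [AddCommGroup M] [Module R M] (m : M)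
    (A₁ A₂ B₁ B₂ : M →ₗ[R] M)
    (h0 : ∀ x, B₁ (A₁ x) + B₂ (A₂ x) = x)
    (h11 : ∀ x, A₁ (B₁ x) = x) (h12 : ∀ x, A₁ (B₂ x) = 0)
    (h21 : ∀ x, A₂ (B₁ x) = 0) (h22 : ∀ x, A₂ (B₂ x) = x)
    (hA₁ : A₁ m ∈ Submodule.span R {m}) (hA₂ : A₂ m ∈ Submodule.span R {m})
    (hB₁ : B₁ m ∈ Submodule.span R {m}) (hB₂ : B₂ m ∈ Submodule.span R {m}) :
    Nonempty ((Submodule.span R {m}) ≃ₗ[R]
      ((Submodule.span R {m}) × (Submodule.span R {m}))) := by
  have key : ∀ T : M →ₗ[R] M, T m ∈ Submodule.span R {m} →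
      ∀ x ∈ Submodule.span R {m}, T x ∈ Submodule.span R {m} := by
    intro T hT x hx
    obtain ⟨r, rfl⟩ := Submodule.mem_span_singleton.mp hx
    rw [map_smul]
    exact Submodule.smul_mem _ r hT
  let a₁ := A₁.restrict (key A₁ hA₁)
  let a₂ := A₂.restrict (key A₂ hA₂)
  let b₁ := B₁.restrict (key B₁ hB₁)
  let b₂ := B₂.restrict (key B₂ hB₂)
  refine ⟨LinearEquiv.ofLinearMap (a₁.prod a₂) (b₁.coprod b₂) ?_ ?_⟩
  · apply LinearMap.ext
    rintro ⟨x, y⟩
    apply Prod.ext
    · apply Subtype.ext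
      simp [a₁, a₂, b₁, b₂, h11, h12]
    · apply Subtype.ext
      simp [a₁, a₂, b₁, b₂, h21, h22]
  · apply LinearMap.ext
    intro x
    apply Subtype.ext
    simp [a₁, a₂, b₁, b₂, h0]

/-- The unrestricted wreath product of the additive group of `L` with the integers. -/
@[ext]
structure W (L : Type) where
  f : ℤ → L
  n : ℤ

variable {L : Type} [Ring L]

instance : Mul (W L) := ⟨fun x y => ⟨fun i => x.f i + y.f (i - x.n), x.n + y.n⟩⟩
instance : One (W L) := ⟨⟨fun _ => 0, 0⟩⟩
instance : Inv (W L) := ⟨fun x => ⟨fun i => - x.f (i + x.n), - x.n⟩⟩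

@[simp] theorem mul_f (x y : W L) (i : ℤ) : (x * y).f i = x.f i + y.f (i - x.n) := rfl
@[simp] theorem mul_n (x y : W L) : (x * y).n = x.n + y.n := rfl
@[simp] theorem one_f (i : ℤ) : (1 : W L).f i = 0 := rfl
@[simp] theorem one_n : (1 : W L).n = 0 := rfl
@[simp] theorem inv_f (x : W L) (i : ℤ) : (x⁻¹).f i = - x.f (i + x.n) := rfl
@[simp] theorem inv_n (x : W L) : (x⁻¹).n = - x.n := rfl

instance : Group (W L) :=
  Group.ofLeftAxioms
    (by
      intro x y z
      ext i
      · simp [add_assoc, sub_sub]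
      · simp [add_assoc])
    (by
      intro x
      ext i
      · simp
      · simp)
    (by
      intro x
      ext i
      · simp
      · simp)

/-- The projection to the top group. -/
def proj : W L →* Multiplicative ℤ where
  toFun x := Multiplicative.ofAdd x.n
  map_one' := rfl
  map_mul' _ _ := rfl

theorem derived_two (G : Subgroup (W L)) : derivedSeries G 2 = ⊥ := by
  have h1 : derivedSeries G 1 ≤ (proj.comp G.subtype).ker := by
    rw [derivedSeries_one]
    exact Abelianization.commutator_subset_ker _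
  rw [show (2 : ℕ) = 1 + 1 from rfl, derivedSeries_succ, Subgroup.commutator_eq_bot_iff_le_centralizer]
  intro x hx
  rw [Subgroup.mem_centralizer_iff]
  intro y hy
  have hx0 : (x : W L).n = 0 := h1 hx
  have hy0 : (y : W L).n = 0 := h1 hy
  apply Subtype.ext
  ext i
  · simp [hx0, hy0, add_comm]
  · simp [add_comm]

/-- The ordered product `f 0 * f 1 * ... * f (k-1)`. -/
def P (f : ℤ → L) : ℕ → L
  | 0 => 1
  | k + 1 => P f k * f k

theorem P_congr {f g : ℤ → L} (k : ℕ) (h : ∀ i : ℕ, i < k → f i = g i) : P f k = P g k := by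
  induction k with
  | zero => rfl
  | succ k ih =>
    simp only [P]
    rw [ih (fun i hi => h i (Nat.lt_succ_of_lt hi)), h k (Nat.lt_succ_self k)]

/-- The distinguished function on the wreath product. -/
def phi (x : W L) : L := if 0 ≤ x.n then P x.f x.n.toNat else 0

/-- The generator of the top group. -/
def t : W L := ⟨fun _ => 0, 1⟩

/-- The element of the base group that is `c` at place `0` and zero elsewhere. -/
def a (c : L) : W L := ⟨fun i => if i = 0 then c else 0, 0⟩

theorem phi_one : phi (1 : W L) = 1 := by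
  simp [phi, P]

theorem phi_step (x : W L) (c : L) : phi (x * (a c * t)) - phi (x * t) = phi x * c := by
  obtain ⟨f, n⟩ := x
  rcases lt_trichotomy n (-1) with h | h | h
  · have h1 : ¬ (0 ≤ n + 1) := by omega
    have h2 : ¬ (0 ≤ n) := by omega
    simp [phi, a, t, h1, h2]
  · subst h
    simp [phi, a, t, P]
  · obtain ⟨k, rfl⟩ : ∃ k : ℕ, n = k := ⟨n.toNat, by omega⟩
    have h1 : (0 : ℤ) ≤ (k : ℤ) + 1 := by omega
    have h2 : ((k : ℤ) + 1).toNat = k + 1 := by omega
    have e1 : P ((⟨f, k⟩ : W L) * (a c * t)).f k = P f k := by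
      apply P_congr
      intro i hi
      have : ¬ ((i : ℤ) - k = 0) := by omega
      simp [a, t, this]
    have e2 : P ((⟨f, k⟩ : W L) * t).f k = P f k := by
      apply P_congr
      intro i hi
      simp [t]
    have n1 : ((⟨f, k⟩ : W L) * (a c * t)).n = (k : ℤ) + 1 := by simp [a, t]
    have n2 : ((⟨f, k⟩ : W L) * t).n = (k : ℤ) + 1 := by simp [t]
    unfold phi
    rw [n1, n2, if_pos h1, if_pos h1, h2]
    simp only [P]
    rw [e1, e2]
    simp [a, t, mul_add]

/-- A subgroup acts on functions on the wreath product by right translation. -/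
def rho (G : Subgroup (W L)) : Representation ℤ G (W L → L) where
  toFun g := LinearMap.funLeft ℤ L (fun h => h * (g : W L))
  map_one' := by
    ext F h
    simp
  map_mul' g g' := by
    ext F h
    simp [mul_assoc]

theorem rho_apply (G : Subgroup (W L)) (g : G) (F : W L → L) (h : W L) :
    rho G g F h = F (h * (g : W L)) := rfl

/-- Pointwise right multiplication commutes with the action of the group ring. -/
noncomputable def rmul (G : Subgroup (W L)) (c : L) :
    (rho G).asModule →ₗ[MonoidAlgebra ℤ G] (rho G).asModule where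
  toFun F := (rho G).asModuleEquiv.symm (fun h => (rho G).asModuleEquiv F h * c)
  map_add' F F' := by
    apply (rho G).asModuleEquiv.injective
    ext h
    simp [add_mul]
  map_smul' r F := by
    apply (rho G).asModuleEquiv.injective
    simp only [LinearEquiv.apply_symm_apply, RingHom.id_apply,
      Representation.asModuleEquiv_map_smul]
    induction r using MonoidAlgebra.induction_linear with
    | zero => ext h; simp
    | add r s hr hs =>
      ext h
      have h1 := congrFun hr h
      have h2 := congrFun hs h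
      simp only [map_add, LinearMap.add_apply, Pi.add_apply, add_mul] at h1 h2 ⊢
      rw [h1, h2]
    | single g z =>
      ext h
      simp [rho_apply, mul_assoc]

theorem rmul_apply (G : Subgroup (W L)) (c : L) (F : (rho G).asModule) (h : W L) :
    (rho G).asModuleEquiv (rmul G c F) h = (rho G).asModuleEquiv F h * c := rfl

theorem rmul_phi_mem (G : Subgroup (W L)) (c : L) (ht : (t : W L) ∈ G) (ha : a c ∈ G) :
    rmul G c ((rho G).asModuleEquiv.symm phi) ∈
      Submodule.span (MonoidAlgebra ℤ G) {(rho G).asModuleEquiv.symm phi} := by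
  rw [Submodule.mem_span_singleton]
  refine ⟨MonoidAlgebra.of ℤ G (⟨a c, ha⟩ * ⟨t, ht⟩) - MonoidAlgebra.of ℤ G ⟨t, ht⟩, ?_⟩
  rw [sub_smul, ← Representation.asModuleEquiv_symm_map_rho,
    ← Representation.asModuleEquiv_symm_map_rho]
  apply (rho G).asModuleEquiv.injective
  ext h
  rw [rmul_apply]
  simp only [map_sub, LinearEquiv.apply_symm_apply, Pi.sub_apply, rho_apply]
  exact phi_step h c

theorem main_of_ring [Nontrivial L] (a₁ a₂ b₁ b₂ : L) (h0 : a₁ * b₁ + a₂ * b₂ = 1)
    (h11 : b₁ * a₁ = 1) (h12 : b₂ * a₁ = 0) (h21 : b₁ * a₂ = 0) (h22 : b₂ * a₂ = 1) :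
    ∃ (G : Type) (_ : Group G), Group.FG G ∧ derivedSeries G 2 = ⊥ ∧
      ∃ (V : Type) (_ : AddCommGroup V) (_ : Module (MonoidAlgebra ℤ G) V),
        Nontrivial V ∧
        (∃ v : V, Submodule.span (MonoidAlgebra ℤ G) {v} = ⊤) ∧
        Nonempty (V ≃ₗ[MonoidAlgebra ℤ G] (V × V)) := by
  let S : Set (W L) := {t, a a₁, a a₂, a b₁, a b₂}
  have hS : S.Finite := by simp [S]
  let G : Subgroup (W L) := Subgroup.closure S
  have hFG : Group.FG G := by
    rw [Group.fg_iff_subgroup_fg]
    exact (Subgroup.fg_iff G).mpr ⟨S, rfl, hS⟩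
  have ht : (t : W L) ∈ G := Subgroup.subset_closure (by simp [S])
  have ha₁ : a a₁ ∈ G := Subgroup.subset_closure (by simp [S])
  have ha₂ : a a₂ ∈ G := Subgroup.subset_closure (by simp [S])
  have hb₁ : a b₁ ∈ G := Subgroup.subset_closure (by simp [S])
  have hb₂ : a b₂ ∈ G := Subgroup.subset_closure (by simp [S])
  let m : (rho G).asModule := (rho G).asModuleEquiv.symm phi
  have hm : m ≠ 0 := by
    intro h
    have h1 : (rho G).asModuleEquiv m 1 = 1 := phi_one
    rw [h] at h1
    simp at h1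
  refine ⟨G, inferInstance, hFG, derived_two G, Submodule.span (MonoidAlgebra ℤ G) {m},
    inferInstance, inferInstance, ?_, ?_, ?_⟩
  · refine ⟨⟨m, Submodule.mem_span_singleton_self m⟩, 0, ?_⟩
    intro h
    exact hm (congrArg Subtype.val h)
  · refine ⟨⟨m, Submodule.mem_span_singleton_self m⟩, ?_⟩
    rw [eq_top_iff]
    rintro ⟨x, hx⟩ -
    obtain ⟨r, rfl⟩ := Submodule.mem_span_singleton.mp hx
    exact Submodule.mem_span_singleton.mpr ⟨r, rfl⟩
  · apply span_equiv_sq m (rmul G a₁) (rmul G a₂) (rmul G b₁) (rmul G b₂)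
    · intro F
      apply (rho G).asModuleEquiv.injective
      ext h
      simp only [map_add, Pi.add_apply, rmul_apply]
      rw [mul_assoc, mul_assoc, ← mul_add, h0, mul_one]
    · intro F
      apply (rho G).asModuleEquiv.injective
      ext h
      simp only [rmul_apply]
      rw [mul_assoc, h11, mul_one]
    · intro F
      apply (rho G).asModuleEquiv.injective
      ext h
      simp only [rmul_apply, map_zero, Pi.zero_apply]
      rw [mul_assoc, h12, mul_zero]
    · intro F
      apply (rho G).asModuleEquiv.injective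
      ext h
      simp only [rmul_apply, map_zero, Pi.zero_apply]
      rw [mul_assoc, h21, mul_zero]
    · intro F
      apply (rho G).asModuleEquiv.injective
      ext h
      simp only [rmul_apply]
      rw [mul_assoc, h22, mul_one]
    · exact rmul_phi_mem G a₁ ht ha₁
    · exact rmul_phi_mem G a₂ ht ha₂
    · exact rmul_phi_mem G b₁ ht hb₁
    · exact rmul_phi_mem G b₂ ht hb₂

/-- The endomorphism ring of the group of integer sequences has elements satisfying the
Leavitt relations. -/
theorem exists_leavitt : ∃ a₁ a₂ b₁ b₂ : Module.End ℤ (ℕ → ℤ),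
    a₁ * b₁ + a₂ * b₂ = 1 ∧ b₁ * a₁ = 1 ∧ b₂ * a₁ = 0 ∧ b₁ * a₂ = 0 ∧ b₂ * a₂ = 1 := by
  have e0 : ℕ ≃ ℕ ⊕ ℕ := Nonempty.some inferInstance
  let e : (ℕ → ℤ) ≃ₗ[ℤ] (ℕ → ℤ) × (ℕ → ℤ) :=
    (LinearEquiv.funCongrLeft ℤ ℤ e0.symm).trans
      (LinearEquiv.sumArrowLequivProdArrow ℕ ℕ ℤ ℤ)
  refine ⟨e.symm.toLinearMap ∘ₗ LinearMap.inl ℤ _ _, e.symm.toLinearMap ∘ₗ LinearMap.inr ℤ _ _,
    LinearMap.fst ℤ _ _ ∘ₗ e.toLinearMap, LinearMap.snd ℤ _ _ ∘ₗ e.toLinearMap,
    ?_, ?_, ?_, ?_, ?_⟩
  · apply LinearMap.ext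
    intro x
    simp only [LinearMap.add_apply, Module.End.mul_apply, LinearMap.comp_apply,
      LinearEquiv.coe_coe, LinearMap.inl_apply, LinearMap.inr_apply, LinearMap.fst_apply,
      LinearMap.snd_apply, Module.End.one_apply]
    rw [← map_add]
    simp
  all_goals
    apply LinearMap.ext
    intro x
    simp [Module.End.mul_apply]

theorem main :
    ∃ (G : Type) (_ : Group G), Group.FG G ∧ derivedSeries G 2 = ⊥ ∧
      ∃ (V : Type) (_ : AddCommGroup V) (_ : Module (MonoidAlgebra ℤ G) V),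
        Nontrivial V ∧
        (∃ v : V, Submodule.span (MonoidAlgebra ℤ G) {v} = ⊤) ∧
        Nonempty (V ≃ₗ[MonoidAlgebra ℤ G] (V × V)) := by
  obtain ⟨a₁, a₂, b₁, b₂, h0, h11, h12, h21, h22⟩ := exists_leavitt
  exact main_of_ring a₁ a₂ b₁ b₂ h0 h11 h12 h21 h22

end Pool.Agent.MP_6d5e8e_al
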